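import Pool.Agent.W990.EB.Stm

set_option autoImplicit false
open Finset

namespace Pool.Agent.W804.EB

open Pool.Agent.W990.EB

theorem v2 : S_V2 := by
  intro ι K I m U hK
  classical
  set Z : Finset ℤ := (I ×ˢ range K).image (fun x => m x.1 - (x.2 : ℤ)) with hZ
  set V : ℤ → ι → ℕ → ℝ := fun z i p => if m i - (p : ℤ) = z then U i else 0 with hV
  have key : ∀ i ∈ I, ∀ j ∈ I, ∀ p ∈ range K, ∀ q ∈ range K,
      (if m i - m j = (p : ℤ) - (q : ℤ) then (1 : ℝ) else 0) * (U i * U j) =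
        ∑ z ∈ Z, V z i p * V z j q := by
    intro i hi j hj p hp q hq
    have hz : m i - (p : ℤ) ∈ Z := by
      rw [hZ]
      exact mem_image.2 ⟨(i, p), mem_product.2 ⟨hi, hp⟩, rfl⟩
    rw [Finset.sum_eq_single (m i - (p : ℤ))]
    · simp only [hV, if_true]
      by_cases h : m i - m j = (p : ℤ) - (q : ℤ)
      · have h' : m j - (q : ℤ) = m i - (p : ℤ) := by linarith
        rw [if_pos h, if_pos h', one_mul]
      · have h' : ¬ (m j - (q : ℤ) = m i - (p : ℤ)) := fun h1 => h (by linarith)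
        rw [if_neg h, if_neg h']
        ring
    · intro z _ hne
      simp only [hV]
      rw [if_neg (fun h => hne h.symm)]
      ring
    · intro h
      exact absurd hz h
  have hsq : ∑ i ∈ I, ∑ j ∈ I, (∑ p ∈ range K, ∑ q ∈ range K,
      (if m i - m j = (p : ℤ) - (q : ℤ) then (1 : ℝ) else 0)) * (U i * U j) =
      ∑ z ∈ Z, (∑ i ∈ I, ∑ p ∈ range K, V z i p) ^ 2 := by
    have h1 : ∀ z ∈ Z, (∑ i ∈ I, ∑ p ∈ range K, V z i p) ^ 2 =
        ∑ i ∈ I, ∑ j ∈ I, ∑ p ∈ range K, ∑ q ∈ range K, V z i p * V z j q := by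
      intro z _
      rw [sq, Finset.sum_mul_sum]
      refine Finset.sum_congr rfl fun i _ => ?_
      refine Finset.sum_congr rfl fun j _ => ?_
      rw [Finset.sum_mul_sum]
    have h2 := Finset.sum_congr (rfl : Z = Z) h1
    rw [h2]
    symm
    rw [Finset.sum_comm]
    refine Finset.sum_congr rfl fun i hi => ?_
    rw [Finset.sum_comm]
    refine Finset.sum_congr rfl fun j hj => ?_
    rw [Finset.sum_comm, Finset.sum_mul]
    refine Finset.sum_congr rfl fun p hp => ?_
    rw [Finset.sum_comm, Finset.sum_mul]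
    refine Finset.sum_congr rfl fun q hq => ?_
    symm
    exact key i hi j hj p hp q hq
  have hW : W K I m U = En I m U - 1 / (K : ℝ) ^ 2 *
      ∑ i ∈ I, ∑ j ∈ I, (∑ p ∈ range K, ∑ q ∈ range K,
      (if m i - m j = (p : ℤ) - (q : ℤ) then (1 : ℝ) else 0)) * (U i * U j) := by
    unfold W En
    rw [Finset.mul_sum, ← Finset.sum_sub_distrib]
    refine Finset.sum_congr rfl fun i _ => ?_
    rw [Finset.mul_sum, ← Finset.sum_sub_distrib]
    refine Finset.sum_congr rfl fun j _ => ?_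
    unfold w
    by_cases h : m i = m j
    · have h' : m i - m j = 0 := by linarith
      rw [if_pos h, if_pos h']
      ring
    · have h' : ¬ (m i - m j = 0) := fun h1 => h (by linarith)
      rw [if_neg h, if_neg h']
      ring
  rw [hW, hsq]
  have hnn : 0 ≤ 1 / (K : ℝ) ^ 2 * ∑ z ∈ Z, (∑ i ∈ I, ∑ p ∈ range K, V z i p) ^ 2 :=
    mul_nonneg (by positivity) (Finset.sum_nonneg fun z _ => sq_nonneg _)
  linarith

end Pool.Agent.W804.EB
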